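import Pool.Agent.V8H7.KD.Sch
import Pool.Agent.R719.DD.FFd

set_option autoImplicit false
set_option linter.unusedSectionVars false

/-! Boundary matrices which are dominated in a weighted `ℓ^p` sense. -/

namespace Pool.Agent.V8H7.KD

open Matrix MonoidAlgebra TH57.FF TH57.Thr TH57.TT2 TH6.LF Pool.Agent.R719.DD

theorem mp_int {G : Type} [Group G] {ι κ : Type} (B : Matrix ι κ ℤ) :
    mp G B = B.map (Int.castRingHom (MonoidAlgebra ℤ G)) := by
  rw [mp_eq]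
  congr 1

theorem RB_of_equiv {G : Type} [Group G] {ι κ ι' κ' : Type} [Fintype ι] [Fintype ι']
    (A : Matrix ι κ (MonoidAlgebra ℤ G)) (B : Matrix ι' κ' (MonoidAlgebra ℤ G))
    (e : LinearMap.range B.vecMulLinear ≃ₗ[MonoidAlgebra ℤ G] LinearMap.range A.vecMulLinear)
    (hB : RB B) : RB A := by
  classical
  obtain ⟨μ, i1, Q, h1, h2, h3⟩ := hB
  have hmem : ∀ z : μ → MonoidAlgebra ℤ G, z ᵥ* Q ∈ LinearMap.range B.vecMulLinear := by
    intro z
    obtain ⟨y, hy⟩ := h3 z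
    exact ⟨y, hy⟩
  let f : (μ → MonoidAlgebra ℤ G) →ₗ[MonoidAlgebra ℤ G] LinearMap.range B.vecMulLinear :=
    Q.vecMulLinear.codRestrict _ hmem
  let g : (μ → MonoidAlgebra ℤ G) →ₗ[MonoidAlgebra ℤ G] (κ → MonoidAlgebra ℤ G) :=
    (LinearMap.range A.vecMulLinear).subtype ∘ₗ e.toLinearMap ∘ₗ f
  let Q' : Matrix μ κ (MonoidAlgebra ℤ G) := fun a => g (Pi.single a 1)
  have hQ' : Q'.vecMulLinear = g := by
    apply (Pi.basisFun (MonoidAlgebra ℤ G) μ).ext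
    intro j
    rw [Pi.basisFun_apply, Matrix.vecMulLinear_apply, Matrix.single_one_vecMul]
    rfl
  have hQ : ∀ z, z ᵥ* Q' = g z := fun z => by rw [← hQ']; rfl
  refine ⟨μ, i1, Q', fun y hy => ?_, fun y => ?_, fun z => ?_⟩
  · rw [hQ] at hy
    have h4 : e (f y) = 0 := Subtype.ext hy
    rw [LinearEquiv.map_eq_zero_iff] at h4
    exact h1 y (congrArg Subtype.val h4)
  · obtain ⟨w, hw⟩ := e.surjective ⟨y ᵥ* A, ⟨y, rfl⟩⟩
    obtain ⟨x, hx⟩ := w.2
    obtain ⟨z, hz⟩ := h2 x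
    refine ⟨z, ?_⟩
    rw [hQ]
    have h4 : f z = w := Subtype.ext (by
      change z ᵥ* Q = w.1
      rw [hz, ← hx]
      rfl)
    change ((e (f z)) : κ → MonoidAlgebra ℤ G) = y ᵥ* A
    rw [h4, hw]
  · obtain ⟨y, hy⟩ := (e (f z)).2
    exact ⟨y, by rw [hQ]; exact hy⟩

theorem RB_of_Dmd {G : Type} [Group G] [DecidableEq G] {κ : Type} [Fintype κ] [DecidableEq κ]
    (htf : ∀ g : G, ∀ k : ℕ, 0 < k → g ^ k = 1 → g = 1)
    {ν : ℤ → ℝ} (hν : IsNorm ν) {A : Matrix κ κ (MonoidAlgebra ℤ G)} {μ : κ → ℝ}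
    (hA : Dmd ν A μ) : RB A := by
  obtain ⟨B, ⟨e⟩⟩ := row_space htf hν hA
  refine RB_of_equiv A (mp G B) e.symm ?_
  rw [mp_int]
  exact RB_int B

/-- `A'` is the square matrix whose row `σ i` is `(g i)⁻¹` times row `i` of `A`, with zeros in the
other rows -/
def Placed {G : Type} [Group G] {ι κ : Type} (A : Matrix ι κ (MonoidAlgebra ℤ G))
    (A' : Matrix κ κ (MonoidAlgebra ℤ G)) : Prop :=
  ∃ (σ : ι → κ) (g : ι → G), Function.Injective σ ∧
    (∀ i j, A' (σ i) j = single (g i)⁻¹ 1 * A i j) ∧ ∀ j, (∀ i, σ i ≠ j) → A' j = 0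

theorem Placed.range {G : Type} [Group G] {ι κ : Type} [Fintype ι] [Fintype κ]
    {A : Matrix ι κ (MonoidAlgebra ℤ G)} {A' : Matrix κ κ (MonoidAlgebra ℤ G)}
    (h : Placed A A') :
    LinearMap.range A'.vecMulLinear = LinearMap.range A.vecMulLinear := by
  classical
  obtain ⟨σ, g, hσ, h1, h2⟩ := h
  have key : ∀ x : κ → MonoidAlgebra ℤ G,
      x ᵥ* A' = (fun i => x (σ i) * single (g i)⁻¹ 1) ᵥ* A := by
    intro x
    funext j
    change ∑ k, x k * A' k j = ∑ i, x (σ i) * single (g i)⁻¹ 1 * A i j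
    refine (Fintype.sum_of_injective σ hσ _ _ ?_ ?_).symm
    · intro k hk
      rw [h2 k fun i hi => hk ⟨i, hi⟩]
      exact mul_zero _
    · intro i
      rw [h1, mul_assoc]
  ext w
  constructor
  · rintro ⟨x, rfl⟩
    exact ⟨_, (key x).symm⟩
  · rintro ⟨y, rfl⟩
    let x : κ → MonoidAlgebra ℤ G := fun k =>
      if h : ∃ i, σ i = k then y h.choose * single (g h.choose) 1 else 0
    have hx : ∀ i, x (σ i) = y i * single (g i) 1 := by
      intro i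
      have h3 : ∃ i', σ i' = σ i := ⟨i, rfl⟩
      have h4 : h3.choose = i := hσ h3.choose_spec
      simp only [x, dif_pos h3, h4]
    refine ⟨x, ?_⟩
    change x ᵥ* A' = y ᵥ* A
    rw [key]
    congr 1
    funext i
    rw [hx, mul_assoc, single_mul_single, mul_inv_cancel, mul_one, ← MonoidAlgebra.one_def,
      mul_one]

theorem RB_of_placed {G : Type} [Group G] [DecidableEq G] {ι κ : Type} [Fintype ι] [Fintype κ]
    [DecidableEq κ] (htf : ∀ g : G, ∀ k : ℕ, 0 < k → g ^ k = 1 → g = 1)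
    {ν : ℤ → ℝ} (hν : IsNorm ν) {A : Matrix ι κ (MonoidAlgebra ℤ G)}
    {A' : Matrix κ κ (MonoidAlgebra ℤ G)} (h : Placed A A') {μ : κ → ℝ} (hA : Dmd ν A' μ) :
    RB A :=
  RB_of_equiv A A' (LinearEquiv.ofEq _ _ h.range) (RB_of_Dmd htf hν hA)

/-- **Dominated boundary matrices.** -/
theorem FF_row {G : Type} [Group G] [DecidableEq G]
    (htf : ∀ g : G, ∀ k : ℕ, 0 < k → g ^ k = 1 → g = 1)
    {ν : ℤ → ℝ} (hν : IsNorm ν) {n m k : ℕ} {A : Matrix (Fin m) (Fin k) (MonoidAlgebra ℤ G)}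
    (hA : Bd G n A) {A' : Matrix (Fin k) (Fin k) (MonoidAlgebra ℤ G)} (h : Placed A A')
    {μ : Fin k → ℝ} (hd : Dmd ν A' μ) : FFle G (n + 1) := by
  have h1 := FFle_of_FR n A hA 0 (FR_of_RB A (RB_of_placed htf hν h hd))
  have h2 : 0 + n + 1 = n + 1 := by ring
  rwa [h2] at h1

/-- **Dominated adjoints of boundary matrices.** -/
theorem FF_col {G : Type} [Group G] [DecidableEq G]
    (htf : ∀ g : G, ∀ k : ℕ, 0 < k → g ^ k = 1 → g = 1)
    {ν : ℤ → ℝ} (hν : IsNorm ν) {n m k : ℕ} {A : Matrix (Fin m) (Fin k) (MonoidAlgebra ℤ G)}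
    (hA : Bd G (n + 1) A) {A' : Matrix (Fin m) (Fin m) (MonoidAlgebra ℤ G)}
    (h : Placed (adj A) A') {μ : Fin m → ℝ} (hd : Dmd ν A' μ)
    (hP : Module.Projective (MonoidAlgebra ℤ G)
      ((Fin k → MonoidAlgebra ℤ G) ⧸ LinearMap.range A.vecMulLinear)) : FFle G (n + 2) := by
  obtain ⟨l, B, hB, hAB⟩ := hA
  obtain ⟨Y, hY⟩ := regular_of_projective A _ hP (LinearEquiv.refl _ _)
  have hSFC : SFC A := by
    apply SFC_of_adj
    refine SFC_of_RB (adj A) (RB_of_placed htf hν h hd) (adj Y) ?_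
    rw [← adj_mul, ← adj_mul, ← Matrix.mul_assoc, hY]
  have h1 := FFle_of_FR n B hB 1 (FR_proj A B hAB hSFC)
  have h2 : 1 + n + 1 = n + 2 := by ring
  rwa [h2] at h1

end Pool.Agent.V8H7.KD
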