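import Pool.Agent.V8H7.KD.FFs

set_option autoImplicit false
set_option linter.unusedSectionVars false

/-! Boundary matrices which are almost dominated exist always. -/

namespace Pool.Agent.V8H7.KD

open Matrix MonoidAlgebra TH57.FF TH57.Thr TH57.TT2 TH6.LF Pool.Agent.R719.DD

/-- the Schur test with zeros -/
theorem schur0 {V : Type*} (N : V → V → ℝ) (a : V → ℝ) (c : ℝ) (hc : 0 < c)
    (hN : ∀ u v, 0 ≤ N u v) (ha : ∀ u, 0 ≤ a u)
    (hrow : ∀ u (M : Finset V), ∑ v ∈ M, N u v ≤ c * a u)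
    (hcol : ∀ v (L : Finset V), ∑ u ∈ L, N u v ≤ c * a v) (p : ℝ) (hp : 1 ≤ p) :
    ∃ w : V → ℝ, (∀ v, 0 < w v) ∧ ∀ (z : V → ℝ) (L M : Finset V), (∀ u, 0 ≤ z u) →
      ∑ v ∈ M, w v * (∑ u ∈ L, z u * N u v) ^ p ≤ c ^ p * ∑ u ∈ L, w u * (z u * a u) ^ p := by
  classical
  have hp0 : p ≠ 0 := by linarith
  let b : V → ℝ := fun v => if a v = 0 then 1 else a v
  have hb : ∀ v, 0 < b v := by
    intro v
    simp only [b]
    split_ifs with h
    · exact one_pos
    · exact lt_of_le_of_ne (ha v) (Ne.symm h)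
  have hab : ∀ v, a v ≤ b v := by
    intro v
    simp only [b]
    split_ifs with h
    · rw [h]; exact zero_le_one
    · exact le_rfl
  refine ⟨fun v => b v ^ (1 - p), fun v => Real.rpow_pos_of_pos (hb v) _, fun z L M hz => ?_⟩
  let z' : V → ℝ := fun v => if a v = 0 then 0 else z v
  have hz' : ∀ u, 0 ≤ z' u := by
    intro u
    simp only [z']
    split_ifs with h
    · exact le_rfl
    · exact hz u
  have h1 := schur N b c hc hN hb
    (fun u M => (hrow u M).trans (mul_le_mul_of_nonneg_left (hab u) hc.le))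
    (fun v L => (hcol v L).trans (mul_le_mul_of_nonneg_left (hab v) hc.le)) p hp z' L M hz'
  have h2 : ∀ u v, z' u * N u v = z u * N u v := by
    intro u v
    simp only [z']
    split_ifs with h
    · have h3 := hrow u {v}
      rw [Finset.sum_singleton, h, mul_zero] at h3
      rw [le_antisymm h3 (hN u v), mul_zero, mul_zero]
    · rfl
  simp only [h2] at h1
  refine h1.trans (le_of_eq ?_)
  congr 1
  refine Finset.sum_congr rfl fun u _ => ?_
  congr 1
  by_cases h : a u = 0
  · simp only [z', b, h, if_true, zero_mul, mul_zero, Real.zero_rpow hp0]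
  · simp only [z', b, if_neg h]

/-- the absolute value -/
theorem isNorm_abs : IsNorm fun x : ℤ => |(x : ℝ)| where
  zero := by simp
  pos := fun x hx => abs_pos.2 (by exact_mod_cast hx)
  add := fun x y => by push_cast; exact abs_add_le _ _
  neg := fun x => by push_cast; exact abs_neg _
  mul := fun x y => by push_cast; exact (abs_mul _ _).le

theorem l1_eq {G : Type} [Group G] (x : MonoidAlgebra ℤ G) :
    (Pool.Agent.Y35.KC.TTm.l1 x : ℝ) = l1 (fun x : ℤ => |(x : ℝ)|) x := by
  unfold l1 Pool.Agent.Y35.KC.TTm.l1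
  push_cast
  refine Finset.sum_congr rfl fun g _ => ?_
  rw [Nat.cast_natAbs]
  push_cast
  rfl

/-- row and column sums of the matrix of other coefficients -/
theorem dom_sums {G : Type} [Group G] [DecidableEq G] {κ : Type} [Fintype κ] [DecidableEq κ]
    (A : Matrix κ κ (MonoidAlgebra ℤ G)) (c : ℝ) (hc : 0 < c) (h1 : DomC c A) (h2 : DomC c Aᵀ) :
    (∀ i, 0 ≤ (((A i i).coeff 1 : ℤ) : ℝ)) ∧
    (∀ u (M : Finset (κ × G)), ∑ v ∈ M, off (fun x : ℤ => |(x : ℝ)|) A u v
      ≤ c * (((A u.1 u.1).coeff 1 : ℤ) : ℝ)) ∧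
    ∀ v (L : Finset (κ × G)), ∑ u ∈ L, off (fun x : ℤ => |(x : ℝ)|) A u v
      ≤ c * (((A v.1 v.1).coeff 1 : ℤ) : ℝ) := by
  let b : κ → κ → ℝ := fun i j =>
    l1 (fun x : ℤ => |(x : ℝ)|) (A i j) - if i = j then |(((A i i).coeff 1 : ℤ) : ℝ)| else 0
  have hb : Bnd (fun x : ℤ => |(x : ℝ)|) A b := by
    intro i j F
    simp only [b]
    split_ifs with hij
    · subst hij
      have h3 := sum_le_l1 isNorm_abs (A i i) (insert 1 F)
      rw [← Finset.add_sum_erase _ _ (Finset.mem_insert_self 1 F)] at h3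
      have h4 : ∑ g ∈ F, (if i = i ∧ g = 1 then (0 : ℝ) else |(((A i i).coeff g : ℤ) : ℝ)|)
          = ∑ g ∈ (insert 1 F).erase 1, |(((A i i).coeff g : ℤ) : ℝ)| := by
        rw [Finset.erase_insert_eq_erase, ← Finset.filter_ne' F 1, Finset.sum_filter]
        refine Finset.sum_congr rfl fun g _ => ?_
        by_cases hg : g = 1
        · simp [hg]
        · simp [hg]
      rw [h4]
      linarith
    · rw [sub_zero]
      refine (le_of_eq ?_).trans (sum_le_l1 isNorm_abs (A i j) F)
      refine Finset.sum_congr rfl fun g _ => ?_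
      rw [if_neg fun h => hij h.1]
  have hrow : ∀ i, ∑ j, b i j ≤ c * (((A i i).coeff 1 : ℤ) : ℝ) := by
    intro i
    have h3 := h1 i
    simp only [b]
    rw [Finset.sum_sub_distrib, Finset.sum_ite_eq Finset.univ i, if_pos (Finset.mem_univ _)]
    simp only [l1_eq] at h3
    exact h3
  have hcol : ∀ j, ∑ i, b i j ≤ c * (((A j j).coeff 1 : ℤ) : ℝ) := by
    intro j
    have h3 := h2 j
    simp only [b]
    rw [Finset.sum_sub_distrib, Finset.sum_ite_eq' Finset.univ j, if_pos (Finset.mem_univ _)]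
    simp only [l1_eq] at h3
    exact h3
  refine ⟨fun i => ?_, fun u M => (row_le isNorm_abs hb u M).trans (hrow _),
    fun v L => (col_le isNorm_abs hb v L).trans (hcol _)⟩
  have h3 := row_le isNorm_abs hb (i, 1) ∅
  rw [Finset.sum_empty] at h3
  have h4 := h3.trans (hrow i)
  exact nonneg_of_mul_nonneg_right h4 hc

end Pool.Agent.V8H7.KD
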